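import Pool.Agent.W544.K3.Defs

/-!
# Project DRB (MP_1eadae_ag), job CORE
-/

set_option autoImplicit false

namespace Pool.Agent.V5helper5.DRB

open Module Pool.Agent.W544.K3

theorem t_CORE (hS : S_struct) (hR : S_rk) (hE : S_eq) (hN : S_ne) : S_core := by
  intro U _ _ _ B h n D hdim ⟨x, hxn, hx0, hxd⟩
  have hsk : Skew B x := D.skew x (D.sub hxn)
  rcases hS U B D.sig x hx0 hsk hxd with ⟨a, e, f, ha, hef, hx⟩ |
    ⟨a, b, e₁, f₁, e₂, f₂, hb, hba, hH, hx⟩
  · refine hR U B h n D e f hef ?_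
    have h1 : wedge B f e = a⁻¹ • x := by
      rw [hx, smul_smul, inv_mul_cancel₀ ha, one_smul]
    rw [h1]
    exact n.smul_mem _ hxn
  · rcases hba.eq_or_lt with heq | hlt
    · have ha : a ≠ 0 := by rw [← heq]; exact hb.ne'
      have h1 : wedge B f₁ e₁ + wedge B f₂ e₂ ∈ n := by
        have h2 : wedge B f₁ e₁ + wedge B f₂ e₂ = a⁻¹ • x := by
          rw [hx, heq, ← smul_add, smul_smul, inv_mul_cancel₀ ha, one_smul]
        rw [h2]
        exact n.smul_mem _ hxn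
      obtain ⟨e, f, hef, h3⟩ := hE U B h n D e₁ f₁ e₂ f₂ hH h1
      exact hR U B h n D e f hef h3
    · obtain ⟨e, f, hef, h3⟩ := hN U B h n D hdim e₁ f₁ e₂ f₂ hH a b hb hlt (hx ▸ hxn)
      exact hR U B h n D e f hef h3

end Pool.Agent.V5helper5.DRB
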