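import Pool.Agent.W544.K3.Defs

/-!
# Project DRB (MP_1eadae_ag), job LOG
-/

set_option autoImplicit false

namespace Pool.Agent.V5helper5.DRB

open Module Pool.Agent.W544.K3

/-- complexification of a real vector -/
noncomputable def cv {n : ℕ} (v : Fin n → ℝ) : Fin n → ℂ := fun i => (v i : ℂ)

lemma cx_cv {n : ℕ} (x : End ℝ (Fin n → ℝ)) (v : Fin n → ℝ) : cx x (cv v) = cv (x v) := by
  funext i
  unfold cx cv
  rw [Matrix.toLin'_apply]
  have h := RingHom.map_mulVec Complex.ofRealHom (LinearMap.toMatrix' x) v i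
  have h2 : (LinearMap.toMatrix' x).mulVec v = x v := LinearMap.toMatrix'_mulVec x v
  rw [h2] at h
  exact h.symm

lemma cv_single {n : ℕ} (i : Fin n) : cv (Pi.single i (1 : ℝ)) = Pi.single i (1 : ℂ) := by
  funext j
  unfold cv
  by_cases h : j = i
  · subst h; simp
  · simp [Pi.single_eq_of_ne h]

/-- complexification of a real multilinear form -/
noncomputable def tC {n k : ℕ} (t : MultilinearMap ℝ (fun _ : Fin k => (Fin n → ℝ)) ℝ) :
    MultilinearMap ℂ (fun _ : Fin k => (Fin n → ℂ)) ℂ :=
  ∑ I : Fin k → Fin n, ((t fun j => Pi.single (I j) (1 : ℝ) : ℝ) : ℂ) •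
    (MultilinearMap.mkPiAlgebra ℂ (Fin k) ℂ).compLinearMap
      (fun j => (LinearMap.proj (I j) : (Fin n → ℂ) →ₗ[ℂ] ℂ))

lemma tC_apply {n k : ℕ} (t : MultilinearMap ℝ (fun _ : Fin k => (Fin n → ℝ)) ℝ)
    (v : Fin k → Fin n → ℂ) :
    tC t v = ∑ I : Fin k → Fin n, ((t fun j => Pi.single (I j) (1 : ℝ) : ℝ) : ℂ) *
      ∏ j, v j (I j) := by
  unfold tC
  rw [MultilinearMap.sum_apply]
  refine Finset.sum_congr rfl fun I _ => ?_
  rw [MultilinearMap.smul_apply, MultilinearMap.compLinearMap_apply,
    MultilinearMap.mkPiAlgebra_apply]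
  rfl

lemma t_expand {n k : ℕ} (t : MultilinearMap ℝ (fun _ : Fin k => (Fin n → ℝ)) ℝ)
    (v : Fin k → Fin n → ℝ) :
    t v = ∑ I : Fin k → Fin n, (t fun j => Pi.single (I j) (1 : ℝ)) * ∏ j, v j (I j) := by
  have h1 : v = fun j => ∑ i : Fin n, v j i • (Pi.single i (1 : ℝ) : Fin n → ℝ) := by
    funext j
    exact (pi_eq_sum_univ' (v j))
  conv_lhs => rw [h1]
  rw [MultilinearMap.map_sum]
  refine Finset.sum_congr rfl fun I _ => ?_
  rw [MultilinearMap.map_smul_univ, smul_eq_mul, mul_comm]

lemma tC_cv {n k : ℕ} (t : MultilinearMap ℝ (fun _ : Fin k => (Fin n → ℝ)) ℝ)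
    (v : Fin k → Fin n → ℝ) : tC t (fun j => cv (v j)) = ((t v : ℝ) : ℂ) := by
  rw [tC_apply, t_expand t v]
  push_cast
  rfl

lemma tC_inv {n k : ℕ} (t : MultilinearMap ℝ (fun _ : Fin k => (Fin n → ℝ)) ℝ)
    (g : End ℝ (Fin n → ℝ)) (hg : ∀ v, t (fun j => g (v j)) = t v) (v : Fin k → Fin n → ℂ) :
    tC t (fun j => cx g (v j)) = tC t v := by
  have h : (tC t).compLinearMap (fun _ => cx g) = tC t := by
    refine Basis.ext_multilinear (fun _ => Pi.basisFun ℂ (Fin n)) fun I => ?_
    rw [MultilinearMap.compLinearMap_apply]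
    simp only [Pi.basisFun_apply, ← cv_single, cx_cv]
    rw [tC_cv t (fun j => g (Pi.single (I j) 1)), hg, tC_cv t (fun j => Pi.single (I j) 1)]
  conv_rhs => rw [← h]
  rw [MultilinearMap.compLinearMap_apply]

/-- the derivation of a multilinear form -/
noncomputable def DD {n k : ℕ} (t : MultilinearMap ℂ (fun _ : Fin k => (Fin n → ℂ)) ℂ)
    (x : End ℂ (Fin n → ℂ)) : MultilinearMap ℂ (fun _ : Fin k => (Fin n → ℂ)) ℂ :=
  ∑ j : Fin k, t.compLinearMap (Function.update (fun _ => (LinearMap.id : End ℂ (Fin n → ℂ))) j x)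

lemma DD_apply {n k : ℕ} (t : MultilinearMap ℂ (fun _ : Fin k => (Fin n → ℂ)) ℂ)
    (x : End ℂ (Fin n → ℂ)) (v : Fin k → Fin n → ℂ) :
    DD t x v = ∑ j, t (Function.update v j (x (v j))) := by
  unfold DD
  rw [MultilinearMap.sum_apply]
  refine Finset.sum_congr rfl fun j _ => ?_
  rw [MultilinearMap.compLinearMap_apply]
  congr 1
  funext i
  by_cases h : i = j
  · subst h; simp
  · simp [Function.update_of_ne h]

lemma multi_zero {n k : ℕ} (D : MultilinearMap ℂ (fun _ : Fin k => (Fin n → ℂ)) ℂ)
    (E : ℂ → Submodule ℂ (Fin n → ℂ)) (hE : ⨆ z, E z = ⊤)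
    (h : ∀ (z : Fin k → ℂ) (v : Fin k → Fin n → ℂ), (∀ j, v j ∈ E (z j)) → D v = 0)
    (s : Finset (Fin k)) : ∀ v : Fin k → Fin n → ℂ, (∀ j, j ∉ s → ∃ z, v j ∈ E z) → D v = 0 := by
  induction s using Finset.induction_on with
  | empty =>
    intro v hv
    choose z hz using fun j => hv j (Finset.notMem_empty j)
    exact h z v hz
  | @insert j s hj ih =>
    intro v hv
    have key : ∀ w : Fin n → ℂ, D (Function.update v j w) = 0 := by
      intro w
      have hw : w ∈ ⨆ z, E z := by rw [hE]; trivial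
      refine Submodule.iSup_induction E (motive := fun w => D (Function.update v j w) = 0) hw
        (fun z w hwz => ?_) ?_ (fun w₁ w₂ h1 h2 => ?_)
      · refine ih _ fun i hi => ?_
        by_cases hij : i = j
        · subst hij
          exact ⟨z, by simpa using hwz⟩
        · rw [Function.update_of_ne hij]
          exact hv i (by simp [hij, hi])
      · exact D.map_update_zero v j
      · rw [D.map_update_add, h1, h2, add_zero]
    have := key (v j)
    rwa [Function.update_eq_self] at this

lemma cx_add_I {n : ℕ} (g : End ℝ (Fin n → ℝ)) (u v : Fin n → ℝ) :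
    cx g (cv u + Complex.I • cv v) = cv (g u) + Complex.I • cv (g v) := by
  rw [map_add, map_smul, cx_cv, cx_cv]

theorem t_LOG (hQ : S_logQ) (hT : S_logT) : S_log := by
  intro n g
  obtain ⟨x, hx1, hx2, hx3⟩ := hQ n g
  refine ⟨x, hx1, ?_, ?_, hx2⟩
  · intro k t ht v
    have hinv : ∀ w, tC t (fun j => cx (g : End ℝ (Fin n → ℝ)) (w j)) = tC t w :=
      tC_inv t (g : End ℝ (Fin n → ℝ)) ht
    have hgen : ∀ (z : Fin k → ℂ) (w : Fin k → Fin n → ℂ),
        (∀ j, w j ∈ End.maxGenEigenspace (cx (g : End ℝ (Fin n → ℝ))) (z j)) →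
        DD (tC t) (cx x) w = 0 := by
      intro z w hw
      rw [DD_apply]
      have h1 : ∀ j, tC t (Function.update w j (cx x (w j))) =
          ((Real.log ‖z j‖ : ℝ) : ℂ) * tC t w := by
        intro j
        rw [hx3 (z j) (w j) (hw j), MultilinearMap.map_update_smul, Function.update_eq_self,
          smul_eq_mul]
      rw [Finset.sum_congr rfl fun j _ => h1 j, ← Finset.sum_mul]
      by_cases hp : ∏ j, z j = 1
      · have h2 : ∑ j, Real.log ‖z j‖ = 0 := by
          rw [← Real.log_prod]
          · rw [← norm_prod, hp, norm_one, Real.log_one]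
          · intro j _ h0
            have hz : z j = 0 := norm_eq_zero.1 h0
            rw [Finset.prod_eq_zero (Finset.mem_univ j) hz] at hp
            exact zero_ne_one hp
        have h3 : ∑ j, ((Real.log ‖z j‖ : ℝ) : ℂ) = 0 := by
          rw [← Complex.ofReal_sum, h2, Complex.ofReal_zero]
        rw [h3, zero_mul]
      · rw [hT (Fin n → ℂ) (cx (g : End ℝ (Fin n → ℝ))) k (tC t) hinv z w hw hp, mul_zero]
    have hall : DD (tC t) (cx x) (fun j => cv (v j)) = 0 :=
      multi_zero (DD (tC t) (cx x))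
        (fun z => End.maxGenEigenspace (cx (g : End ℝ (Fin n → ℝ))) z)
        (Module.End.iSup_maxGenEigenspace_eq_top _) hgen Finset.univ _
        (fun j hj => absurd (Finset.mem_univ j) hj)
    rw [DD_apply] at hall
    have h4 : ∀ j, tC t (Function.update (fun j => cv (v j)) j (cx x (cv (v j)))) =
        ((t (Function.update v j (x (v j))) : ℝ) : ℂ) := by
      intro j
      rw [← tC_cv, cx_cv]
      congr 1
      funext i
      by_cases h : i = j
      · subst h; simp
      · simp [Function.update_of_ne h]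
    rw [Finset.sum_congr rfl fun j _ => h4 j, ← Complex.ofReal_sum] at hall
    exact Complex.ofReal_eq_zero.1 hall
  · rintro α β ⟨u, v, huv, hu, hv⟩ hab hx0
    set z : ℂ := ⟨α, β⟩ with hz
    have hz' : z = (α : ℂ) + Complex.I * β := by
      rw [hz]
      apply Complex.ext <;> simp
    set w : Fin n → ℂ := cv u + Complex.I • cv v with hw
    have hwne : w ≠ 0 := by
      intro h0
      have h1 : ∀ i, (u i : ℂ) + Complex.I * (v i : ℂ) = 0 := fun i => by
        have := congrFun h0 i
        simpa [hw, cv] using this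
      have h2 : u = 0 := by
        funext i
        have := congrArg Complex.re (h1 i)
        simpa using this
      have h3 : v = 0 := by
        funext i
        have := congrArg Complex.im (h1 i)
        simpa using this
      rcases huv with h | h
      · exact h h2
      · exact h h3
    have hgw : cx (g : End ℝ (Fin n → ℝ)) w = z • w := by
      rw [hw, cx_add_I]
      have e1 : (g : End ℝ (Fin n → ℝ)) u = α • u - β • v := hu
      have e2 : (g : End ℝ (Fin n → ℝ)) v = β • u + α • v := hv
      rw [e1, e2, hz']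
      funext i
      simp only [cv, Pi.add_apply, Pi.smul_apply, Pi.sub_apply, smul_eq_mul]
      push_cast
      linear_combination (-(β : ℂ) * (v i : ℂ)) * Complex.I_mul_I
    have hzne : z ≠ 0 := by
      intro h0
      rw [h0, zero_smul, hw, cx_add_I] at hgw
      have h1 : ∀ i, (((g : End ℝ (Fin n → ℝ)) u i : ℝ) : ℂ) +
          Complex.I * (((g : End ℝ (Fin n → ℝ)) v i : ℝ) : ℂ) = 0 := fun i => by
        have := congrFun hgw i
        simpa [cv] using this
      have h2 : g u = 0 := by
        funext i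
        have := congrArg Complex.re (h1 i)
        simpa using this
      have h3 : g v = 0 := by
        funext i
        have := congrArg Complex.im (h1 i)
        simpa using this
      rcases huv with h | h
      · exact h (g.map_eq_zero_iff.1 h2)
      · exact h (g.map_eq_zero_iff.1 h3)
    have hmem : w ∈ End.maxGenEigenspace (cx (g : End ℝ (Fin n → ℝ))) z := by
      rw [Module.End.mem_maxGenEigenspace]
      refine ⟨1, ?_⟩
      rw [pow_one, LinearMap.sub_apply, hgw]
      simp
    have h5 := hx3 z w hmem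
    have h6 : cx x w = 0 := by
      rw [hx0, hw, cx_add_I]
      funext i
      simp [cv]
    rw [h6] at h5
    have h7 : ((Real.log ‖z‖ : ℝ) : ℂ) = 0 := by
      rcases smul_eq_zero.1 h5.symm with h | h
      · exact h
      · exact absurd h hwne
    have h8 : Real.log ‖z‖ = 0 := Complex.ofReal_eq_zero.1 h7
    have hn0 : 0 < ‖z‖ := norm_pos_iff.2 hzne
    have h9 : ‖z‖ = 1 := by
      rcases Real.log_eq_zero.1 h8 with h | h | h
      · exact absurd h hn0.ne'
      · exact h
      · linarith
    apply hab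
    have h10 : ‖z‖ ^ 2 = α ^ 2 + β ^ 2 := by
      rw [Complex.sq_norm, Complex.normSq_apply]
      simp [hz]
      ring
    rw [← h10, h9, one_pow]

end Pool.Agent.V5helper5.DRB
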