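import Pool.Agent.W544.K3.Defs

/-!
# Project DRB (MP_1eadae_ag), job LOGT
-/

set_option autoImplicit false

namespace Pool.Agent.V5helper5.DRB

open Module Pool.Agent.W544.K3

lemma logt_aux {W : Type} [AddCommGroup W] [Module ℂ W] (g : End ℂ W) {k : ℕ}
    (t : MultilinearMap ℂ (fun _ : Fin k => W) ℂ) (ht : ∀ v, t (fun j => g (v j)) = t v)
    (z : Fin k → ℂ) (hz : ∏ j, z j ≠ 1) (N : ℕ) :
    ∀ (a : Fin k → ℕ) (v : Fin k → W), ∑ j, a j = N →
      (∀ j, ((g - algebraMap ℂ (End ℂ W) (z j)) ^ (a j)) (v j) = 0) → t v = 0 := by
  induction N using Nat.strong_induction_on with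
  | _ N ih =>
    intro a v ha hv
    by_cases h0 : ∃ j, a j = 0
    · obtain ⟨j, hj⟩ := h0
      have : v j = 0 := by
        have := hv j
        rw [hj, pow_zero] at this
        simpa using this
      exact t.map_coord_zero j this
    · push Not at h0
      have hexp : (fun j => g (v j)) =
          (fun j => z j • v j) + (fun j => (g - algebraMap ℂ (End ℂ W) (z j)) (v j)) := by
        funext j
        simp [Pi.add_apply, LinearMap.sub_apply, Module.algebraMap_end_apply]
      have h1 := ht v
      rw [hexp, MultilinearMap.map_add_univ] at h1
      have h2 : ∀ s : Finset (Fin k), s ≠ Finset.univ →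
          t (s.piecewise (fun j => z j • v j)
            (fun j => (g - algebraMap ℂ (End ℂ W) (z j)) (v j))) = 0 := by
        intro s hs
        obtain ⟨i, hi⟩ : ∃ i, i ∉ s := by
          by_contra hcon
          push Not at hcon
          exact hs (Finset.eq_univ_of_forall hcon)
        refine ih (∑ j, if j ∈ s then a j else a j - 1) ?_
          (fun j => if j ∈ s then a j else a j - 1) _ rfl ?_
        · rw [← ha]
          apply Finset.sum_lt_sum
          · intro j _
            split_ifs <;> omega
          · exact ⟨i, Finset.mem_univ i, by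
              rw [if_neg hi]
              have := h0 i
              omega⟩
        · intro j
          by_cases hj : j ∈ s
          · simp only [hj, if_true, Finset.piecewise_eq_of_mem]
            rw [map_smul, hv j, smul_zero]
          · simp only [hj, if_false, Finset.piecewise_eq_of_notMem, not_false_eq_true]
            have h3 := hv j
            have h4 : a j = (a j - 1) + 1 := by
              have := h0 j
              omega
            rw [h4, pow_succ] at h3
            simpa using h3
      rw [Finset.sum_eq_single (Finset.univ : Finset (Fin k)) (fun s _ hs => h2 s hs)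
        (fun h => absurd (Finset.mem_univ _) h)] at h1
      rw [Finset.piecewise_univ, t.map_smul_univ] at h1
      have h3 : (∏ j, z j - 1) * t v = 0 := by
        rw [sub_mul, one_mul, ← smul_eq_mul, h1, sub_self]
      rcases mul_eq_zero.1 h3 with h4 | h4
      · exact absurd (sub_eq_zero.1 h4) hz
      · exact h4

theorem t_LOGT : S_logT := by
  intro W _ _ g k t ht z v hv hz
  have h1 : ∀ j, ∃ a : ℕ, ((g - algebraMap ℂ (End ℂ W) (z j)) ^ a) (v j) = 0 := by
    intro j
    have := hv j
    rw [Module.End.mem_maxGenEigenspace] at this
    obtain ⟨a, ha⟩ := this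
    refine ⟨a, ?_⟩
    rw [Algebra.algebraMap_eq_smul_one]
    exact ha
  choose a ha using h1
  exact logt_aux g t ht z hz _ a v rfl ha

end Pool.Agent.V5helper5.DRB
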